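import Pool.Agent.Helper58.R3.Stmts

/-! Module BF: the end of the case of two elements. -/

open Classical

namespace Pool.Agent.Helper58.R3

theorem bf_mem_nb {m : ℕ} {H : SimpleGraph (Fin m)} {F : Finset (Fin m)} {x : Fin m} :
    x ∈ nb H F ↔ x ∉ F ∧ ∃ y ∈ F, H.Adj y x := by
  unfold nb
  simp

/-- two multiples of `c` in a window of length `c` -/
theorem bf_win (c a b u : ℕ) (ha : c ∣ a) (hb : c ∣ b) (h1 : u < a) (h2 : a ≤ u + c)
    (h3 : u < b) (h4 : b ≤ u + c) : a = b := by
  obtain ⟨p, rfl⟩ := ha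
  obtain ⟨q, rfl⟩ := hb
  rcases lt_trichotomy p q with h | h | h
  · exfalso
    have : c * (p + 1) ≤ c * q := Nat.mul_le_mul_left c h
    rw [Nat.mul_add, Nat.mul_one] at this
    omega
  · rw [h]
  · exfalso
    have : c * (q + 1) ≤ c * p := Nat.mul_le_mul_left c h
    rw [Nat.mul_add, Nat.mul_one] at this
    omega

theorem st_BF (h1 : ST_LYF) (h2 : ST_LA) (h3 : ST_R2) : ST_BF := by
  intro m H v0 Z ψ k c c' d hB hd
  obtain ⟨f1, f2, -, f4, -, f6, -, -, -, -, -⟩ := h1 m H v0 Z ψ k hB.s
  have hk1 := hB.s.k1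
  have hc1 := hB.c1
  have hc1' := hB.c1'
  have hcc := hB.cc
  have hvk : Lay Z ψ 0 (ψ^[k] v0) := by
    have := f6 k le_rfl
    rwa [Nat.sub_self] at this
  have hvkZ : ψ^[k] v0 ∈ Z := hvk.1
  have hdZ : d ∉ Z := by
    have := hd.2 0 (by omega)
    simpa using this
  have hlay : ∀ y, ∃ j, Lay Z ψ j y := fun y => (f1 y).resolve_right (hB.np y)
  -- the vertex of the orbit of layer `i`
  have hor : ∀ i, i ≤ k → Lay Z ψ i (ψ^[k - i] v0) := by
    intro i hi
    have := f6 (k - i) (Nat.sub_le _ _)
    rwa [Nat.sub_sub_self hi] at this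
  have hmc : ψ^[k - c] v0 ∉ Z := by
    have := (hor c (by omega)).2 0 (by omega)
    simpa using this
  have hψ : ψ (ψ^[k - c] v0) = ψ^[k - (c - 1)] v0 := by
    rw [← Function.iterate_succ_apply' ψ (k - c) v0]
    congr 2
    omega
  have hne : ψ d ≠ ψ^[k - (c - 1)] v0 := by
    intro h
    rw [← hψ] at h
    exact hB.dO (k - c) (Nat.sub_le _ _) (hB.s.we.inj _ _ hdZ hmc h)
  rcases Nat.lt_or_ge 1 c with hc2 | hc2
  · exfalso
    -- the largest index
    obtain ⟨w, hw⟩ : ∃ w, w = c * ((k + 1) / c) := ⟨_, rfl⟩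
    have hw1 : w ≤ k + 1 := by
      rw [hw]
      exact Nat.mul_div_le _ _
    have hw2 : k + 1 < w + c := by
      rw [hw]
      have := Nat.lt_mul_div_succ (k + 1) (show 0 < c by omega)
      rwa [Nat.mul_add, Nat.mul_one] at this
    have hwc : c ∣ w := ⟨(k + 1) / c, hw⟩
    obtain ⟨i1, hi1⟩ : ∃ i1, w = i1 + 1 := ⟨w - 1, by omega⟩
    have hi1k : i1 ≤ k := by omega
    obtain ⟨F, hF⟩ : ∃ F : Finset (Fin m), F = Finset.univ.filter
        (fun x => (∃ i, c ∣ i + 1 ∧ Lay Z ψ i x) ∧ x ≠ ψ^[k - i1] v0) := ⟨_, rfl⟩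
    have hmF : ∀ x, x ∈ F ↔ (∃ i, c ∣ i + 1 ∧ Lay Z ψ i x) ∧ x ≠ ψ^[k - i1] v0 := by
      intro x
      rw [hF]
      simp
    have hnb : nb H F ⊆ {v0, ψ^[k - i1] v0} := by
      intro y hy
      obtain ⟨hyF, x, hx, hxy⟩ := bf_mem_nb.1 hy
      obtain ⟨⟨i, hi, hix⟩, hxv⟩ := (hmF x).1 hx
      obtain ⟨j, hj⟩ := hlay y
      rw [Finset.mem_insert, Finset.mem_singleton]
      by_cases hjc : c ∣ j + 1
      · right
        by_contra hne'
        exact hyF ((hmF y).2 ⟨⟨j, hjc, hj⟩, hne'⟩)
      · rcases lt_trichotomy i j with hij | hij | hij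
        · left
          have hnc : j - i ≠ c := by
            intro h
            apply hjc
            have : j + 1 = (i + 1) + c := by omega
            rw [this]
            exact Nat.dvd_add hi (dvd_refl c)
          rcases h2 m H v0 Z ψ k c c' d hB x y i j c hix hj hij hxy hd with h | h
          · obtain ⟨hjk, hyv, h | h⟩ := h
            · exact absurd h hnc
            · have hic : i + 1 = c := by
                have h5 := Nat.le_of_dvd (Nat.succ_pos i) hi
                omega
              have hjk' : j = k := by omega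
              rw [hyv, hjk', Nat.sub_self]
              rfl
          · exact absurd h.1 hnc
        · exact absurd (hij ▸ hi) hjc
        · exfalso
          have hnc : i - j ≠ c := by
            intro h
            apply hjc
            have : i + 1 = (j + 1) + c := by omega
            rw [this] at hi
            exact (Nat.dvd_add_left (dvd_refl c)).1 hi
          rcases h2 m H v0 Z ψ k c c' d hB y x j i c hj hix hij hxy.symm hd with h | h
          · obtain ⟨hik, hxv', h | h⟩ := h
            · exact absurd h hnc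
            · have h6 : i + 1 = w :=
                bf_win c (i + 1) w c' hi hwc (by omega) (by omega) (by omega) (by omega)
              have h7 : i = i1 := by omega
              rw [h7] at hxv'
              exact hxv hxv'
          · exact absurd h.1 hnc
    have hcard : (nb H F).card ≤ 2 :=
      (Finset.card_le_card hnb).trans Finset.card_le_two
    have hlc : c ∣ (c - 1) + 1 := by
      have : c - 1 + 1 = c := by omega
      rw [this]
    have hFne : F.Nonempty := by
      by_cases hcase : ψ^[k - (c - 1)] v0 = ψ^[k - i1] v0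
      · refine ⟨ψ d, (hmF _).2 ⟨⟨c - 1, hlc, ?_⟩, ?_⟩⟩
        · have h5 : Lay Z ψ (1 + (c - 1)) d := by
            have : 1 + (c - 1) = c := by omega
            rw [this]
            exact hd
          exact f4 d 1 (c - 1) h5
        · rw [← hcase]
          exact hne
      · exact ⟨ψ^[k - (c - 1)] v0, (hmF _).2 ⟨⟨c - 1, hlc, hor (c - 1) (by omega)⟩, hcase⟩⟩
    rcases hB.s.k3 F hFne hcard (ψ^[k] v0) with h | h
    · obtain ⟨⟨i, hi, hix⟩, -⟩ := (hmF _).1 h
      have h0 := f2 _ _ _ hix hvk
      rw [h0] at hi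
      have := Nat.le_of_dvd (by omega) hi
      omega
    · have h5 := hnb h
      rw [Finset.mem_insert, Finset.mem_singleton] at h5
      rcases h5 with h5 | h5
      · have h6 : Lay Z ψ k v0 := hB.s.kl
        rw [h5] at hvk
        have := f2 _ _ _ hvk h6
        omega
      · have h6 := hor i1 hi1k
        rw [← h5] at h6
        have h0 := f2 _ _ _ h6 hvk
        rw [hi1, h0] at hwc
        have := Nat.le_of_dvd (by omega) hwc
        omega
  · have hc : c = 1 := by omega
    subst hc
    have hk' : c' = k := by omega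
    have hv0 : v0 ∈ nb H Z := by
      refine (hB.D v0).2 (Or.inr (Or.inl ?_))
      rw [hk', Nat.sub_self]
      rfl
    have hmod : k % (k + 1) = k := Nat.mod_eq_of_lt (Nat.lt_succ_self k)
    have hr := h3 m H v0 Z ψ k hB.s v0 hv0 k hB.s.kl (by rw [hmod]; omega)
    rw [hmod, Nat.sub_self] at hr
    have hadj : H.Adj v0 (ψ^[k] v0) := hr.1.symm
    have hdn : d ∈ nb H Z := (hB.D d).2 (Or.inr (Or.inr rfl))
    obtain ⟨-, z, hz, hzd⟩ := bf_mem_nb.1 hdn
    have h5 := hB.s.we.hom z d hzd (fun h => hdZ h.2)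
    rw [hB.s.we.zv z hz] at h5
    refine ⟨hv0, ψ^[k] v0, hvkZ, ψ d, hd.1, ?_, hadj, h5⟩
    intro h
    apply hne
    rw [← h]
    rfl

end Pool.Agent.Helper58.R3
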